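import Mathlib

set_option autoImplicit false

open Polynomial

namespace Pool.Agent.Results.MP_512501_an.InteriorPeak

/-- `Q = c (x - x_1) ... (x - x_n)` with `c ≠ 0`, `n ≥ 1` and all `x_i` in `[-1,1]`. -/
def ZerosInInterval (Q : ℝ[X]) : Prop :=
  ∃ (c : ℝ) (s : Multiset ℝ), c ≠ 0 ∧ 1 ≤ Multiset.card s ∧ (∀ x ∈ s, -1 ≤ x ∧ x ≤ 1) ∧
    Q = C c * (s.map fun x => X - C x).prod

/-- `max_{[-1,1]} |Q| = |Q(1)|`. -/
def RightDominated (Q : ℝ[X]) : Prop :=
  IsGreatest ((fun x => |Q.eval x|) '' Set.Icc (-1 : ℝ) 1) |Q.eval 1|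

/-- `max_{[-1,1]} |Q'| = max (|Q'(-1)|, |Q'(1)|)`. -/
def DerivPeaksAtEndpoint (Q : ℝ[X]) : Prop :=
  IsGreatest ((fun x => |(derivative Q).eval x|) '' Set.Icc (-1 : ℝ) 1)
    (max |(derivative Q).eval (-1)| |(derivative Q).eval 1|)

/-- The counterexample, of degree 32. -/
noncomputable def Q : ℝ[X] :=
  (X - C (-953 / 1000)) * ((X - C (-1)) ^ 2 * (X - C (463 / 1000)) ^ 24 * ((X - C (-868 / 1000)) *
    (X - C (-829 / 1000)) * (X - C (-729 / 1000)) * (X - C (-688 / 1000)) * (X - C (-578 / 1000))))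

/-- bound for `|t - W|` on `j ≤ t ≤ j + 1` -/
def m (j W : ℕ) : ℕ := if W ≤ j then j + 1 - W else W - j

theorem m_spec {j W : ℕ} {t : ℝ} (h1 : (j : ℝ) ≤ t) (h2 : t ≤ j + 1) : |t - W| ≤ (m j W : ℝ) := by
  unfold m
  split_ifs with h
  · have h3 : (W : ℝ) ≤ j := by exact_mod_cast h
    rw [Nat.cast_sub (by omega), abs_le]
    push_cast
    constructor <;> linarith
  · push Not at h
    have h3 : (j : ℝ) + 1 ≤ W := by exact_mod_cast h
    rw [Nat.cast_sub h.le, abs_le]
    constructor <;> linarith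

/-- the product of the bounds -/
def f (j : ℕ) : ℕ := m j 47 * (m j 0 ^ 2 * m j 1463 ^ 24 * (m j 132 * m j 171 * m j 271 *
    m j 312 * m j 422))

/-- `1000^32 |Q(1)|` -/
def Bd : ℕ := 1953 * (2000 ^ 2 * 537 ^ 24 * (1868 * 1829 * 1729 * 1688 * 1578))

theorem chk : ∀ j < 1463, f j ≤ Bd := by
  decide +kernel

theorem eval_Q (x : ℝ) : Q.eval x = (x + 953 / 1000) * ((x + 1) ^ 2 * (x - 463 / 1000) ^ 24 *
    ((x + 868 / 1000) * (x + 829 / 1000) * (x + 729 / 1000) * (x + 688 / 1000) *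
    (x + 578 / 1000))) := by
  simp only [Q, eval_mul, eval_pow, eval_sub, eval_X, eval_C]
  have e1 : (x - -953 / 1000) = x + 953 / 1000 := by ring
  have e2 : (x - -1) = x + 1 := by ring
  have e3 : (x - -868 / 1000) = x + 868 / 1000 := by ring
  have e4 : (x - -829 / 1000) = x + 829 / 1000 := by ring
  have e5 : (x - -729 / 1000) = x + 729 / 1000 := by ring
  have e6 : (x - -688 / 1000) = x + 688 / 1000 := by ring
  have e7 : (x - -578 / 1000) = x + 578 / 1000 := by ring
  rw [e1, e2, e3, e4, e5, e6, e7]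

/-- the shape of the product -/
def g (a b c d e f g h : ℝ) : ℝ := a * (b ^ 2 * c ^ 24 * (d * e * f * g * h))

theorem g_scale (k a b c d e f h i : ℝ) : k ^ 32 * g a b c d e f h i =
    g (k * a) (k * b) (k * c) (k * d) (k * e) (k * f) (k * h) (k * i) := by
  unfold g; ring

theorem abs_g (a b c d e f h i : ℝ) : |g a b c d e f h i| =
    g |a| |b| |c| |d| |e| |f| |h| |i| := by
  simp only [g, abs_mul, abs_pow]

theorem g_mono {a b c d e f h i a' b' c' d' e' f' h' i' : ℝ} (ha : |a| ≤ a') (hb : |b| ≤ b')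
    (hc : |c| ≤ c') (hd : |d| ≤ d') (he : |e| ≤ e') (hf : |f| ≤ f') (hh : |h| ≤ h')
    (hi : |i| ≤ i') : |g a b c d e f h i| ≤ g a' b' c' d' e' f' h' i' := by
  rw [abs_g]
  unfold g
  have a0 := (abs_nonneg a).trans ha
  have d0 := (abs_nonneg d).trans hd
  have e0 := (abs_nonneg e).trans he
  have f0 := (abs_nonneg f).trans hf
  have h0 := (abs_nonneg h).trans hh
  gcongr

theorem eval_Q' (x t : ℝ) (ht : t = 1000 * (x + 1)) : 1000 ^ 32 * Q.eval x =
    g (t - 47) t (t - 1463) (t - 132) (t - 171) (t - 271) (t - 312) (t - 422) := by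
  have h : Q.eval x = g (x + 953 / 1000) (x + 1) (x - 463 / 1000) (x + 868 / 1000)
    (x + 829 / 1000) (x + 729 / 1000) (x + 688 / 1000) (x + 578 / 1000) := eval_Q x
  rw [h, g_scale, ht]
  congr 1 <;> ring

theorem f_cast (j : ℕ) : (f j : ℝ) = g (m j 47) (m j 0) (m j 1463) (m j 132) (m j 171) (m j 271)
    (m j 312) (m j 422) := by
  simp only [f, g, Nat.cast_mul, Nat.cast_pow]

theorem Bd_cast : g ((2000 : ℝ) - 47) 2000 (2000 - 1463) (2000 - 132) (2000 - 171) (2000 - 271)
    (2000 - 312) (2000 - 422) = (Bd : ℝ) := by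
  simp only [g, Bd]
  norm_num

theorem dominated (x : ℝ) (hx : x ∈ Set.Icc (-1 : ℝ) 1) : |Q.eval x| ≤ |Q.eval 1| := by
  set t := 1000 * (x + 1) with ht
  have ht0 : 0 ≤ t := by rw [ht]; linarith [hx.1]
  have ht2 : t ≤ 2000 := by rw [ht]; linarith [hx.2]
  have h1 := eval_Q' x t ht
  have h2 := eval_Q' 1 2000 (by norm_num)
  have key : |1000 ^ 32 * Q.eval x| ≤ |1000 ^ 32 * Q.eval 1| := by
    rw [h1, h2]
    rcases lt_or_ge t 1463 with hlt | hge
    · -- use the table
      set j := ⌊t⌋₊ with hj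
      have hj1 : (j : ℝ) ≤ t := Nat.floor_le ht0
      have hj2 : t ≤ j + 1 := (Nat.lt_floor_add_one t).le
      have hj3 : j < 1463 := by
        rw [hj]
        exact (Nat.floor_lt ht0).mpr (by exact_mod_cast hlt)
      have h4 : (f j : ℝ) ≤ Bd := by exact_mod_cast chk j hj3
      have h5 : |(Bd : ℝ)| = Bd := abs_of_nonneg (Nat.cast_nonneg Bd)
      rw [Bd_cast, h5]
      refine le_trans ?_ h4
      rw [f_cast]
      have b1 := m_spec (W := 47) hj1 hj2
      have b2 := m_spec (W := 0) hj1 hj2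
      have b3 := m_spec (W := 1463) hj1 hj2
      have b4 := m_spec (W := 132) hj1 hj2
      have b5 := m_spec (W := 171) hj1 hj2
      have b6 := m_spec (W := 271) hj1 hj2
      have b7 := m_spec (W := 312) hj1 hj2
      have b8 := m_spec (W := 422) hj1 hj2
      simp only [Nat.cast_ofNat, Nat.cast_zero, sub_zero] at b1 b2 b3 b4 b5 b6 b7 b8
      exact g_mono b1 b2 b3 b4 b5 b6 b7 b8
    · have hb : ∀ W : ℝ, W ≤ 1463 → |t - W| ≤ |(2000 : ℝ) - W| := by
        intro W hW
        rw [abs_of_nonneg (by linarith), abs_of_nonneg (by linarith)]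
        linarith
      have b2 : |t| ≤ |(2000 : ℝ)| := by
        rw [abs_of_nonneg ht0, abs_of_nonneg (by norm_num)]; exact ht2
      rw [abs_g (2000 - 47)]
      exact g_mono (hb 47 (by norm_num)) b2 (hb 1463 (by norm_num)) (hb 132 (by norm_num))
        (hb 171 (by norm_num)) (hb 271 (by norm_num)) (hb 312 (by norm_num)) (hb 422 (by norm_num))
  rw [abs_mul, abs_mul] at key
  exact le_of_mul_le_mul_left key (by positivity)

theorem deriv_Q (x : ℝ) : (derivative Q).eval x =
    ((x + 1) ^ 2 * (x - 463 / 1000) ^ 24 * ((x + 868 / 1000) * (x + 829 / 1000) * (x + 729 / 1000) *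
      (x + 688 / 1000) * (x + 578 / 1000))) +
    (x + 953 / 1000) * ((2 * (x + 1) * (x - 463 / 1000) ^ 24 +
      (x + 1) ^ 2 * (24 * (x - 463 / 1000) ^ 23)) *
      ((x + 868 / 1000) * (x + 829 / 1000) * (x + 729 / 1000) * (x + 688 / 1000) *
      (x + 578 / 1000)) + (x + 1) ^ 2 * (x - 463 / 1000) ^ 24 *
      ((x + 829 / 1000) * (x + 729 / 1000) * (x + 688 / 1000) * (x + 578 / 1000) +
       (x + 868 / 1000) * (x + 729 / 1000) * (x + 688 / 1000) * (x + 578 / 1000) +
       (x + 868 / 1000) * (x + 829 / 1000) * (x + 688 / 1000) * (x + 578 / 1000) +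
       (x + 868 / 1000) * (x + 829 / 1000) * (x + 729 / 1000) * (x + 578 / 1000) +
       (x + 868 / 1000) * (x + 829 / 1000) * (x + 729 / 1000) * (x + 688 / 1000))) := by
  simp only [Q, derivative_mul, derivative_pow, derivative_sub, derivative_X, derivative_C,
    eval_add, eval_mul, eval_pow, eval_sub, eval_X, eval_C, sub_zero, mul_one, one_mul,
    Nat.cast_ofNat, map_ofNat, eval_ofNat, show (24 : ℕ) - 1 = 23 from rfl,
    show (2 : ℕ) - 1 = 1 from rfl, pow_one]
  have e1 : (x - -953 / 1000) = x + 953 / 1000 := by ring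
  have e2 : (x - -1) = x + 1 := by ring
  have e3 : (x - -868 / 1000) = x + 868 / 1000 := by ring
  have e4 : (x - -829 / 1000) = x + 829 / 1000 := by ring
  have e5 : (x - -729 / 1000) = x + 729 / 1000 := by ring
  have e6 : (x - -688 / 1000) = x + 688 / 1000 := by ring
  have e7 : (x - -578 / 1000) = x + 578 / 1000 := by ring
  rw [e1, e2, e3, e4, e5, e6, e7]
  generalize (x + 953 / 1000) = a1
  generalize (x + 1) = a2
  generalize (x - 463 / 1000) = a3
  generalize (x + 868 / 1000) = a4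
  generalize (x + 829 / 1000) = a5
  generalize (x + 729 / 1000) = a6
  generalize (x + 688 / 1000) = a7
  generalize (x + 578 / 1000) = a8
  ring

theorem big : max |(derivative Q).eval (-1)| |(derivative Q).eval 1| <
    |(derivative Q).eval (-953 / 1000)| := by
  have h1 : (derivative Q).eval (-1) = 0 := by rw [deriv_Q]; norm_num
  rw [h1, abs_zero, max_eq_right (abs_nonneg _)]
  rw [deriv_Q, deriv_Q, lt_abs]
  norm_num

theorem zeros : ZerosInInterval Q := by
  refine ⟨1, (-953 / 1000) ::ₘ (Multiset.replicate 2 (-1) + Multiset.replicate 24 (463 / 1000) +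
    {-868 / 1000, -829 / 1000, -729 / 1000, -688 / 1000, -578 / 1000}), one_ne_zero, by simp, ?_, ?_⟩
  · intro x hx
    simp only [Multiset.mem_cons, Multiset.mem_add, Multiset.mem_replicate, Multiset.insert_eq_cons,
      Multiset.mem_singleton] at hx
    rcases hx with h | (⟨-, h⟩ | ⟨-, h⟩) | h | h | h | h | h <;> subst h <;> norm_num
  · simp only [Q, Multiset.map_cons, Multiset.map_add, Multiset.map_replicate, Multiset.prod_cons,
      Multiset.prod_add, Multiset.prod_replicate, Multiset.insert_eq_cons, Multiset.map_singleton,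
      Multiset.prod_singleton, map_one, one_mul]
    generalize (X - C (-953 / 1000) : ℝ[X]) = a1
    generalize (X - C (-1) : ℝ[X]) = a2
    generalize (X - C (463 / 1000) : ℝ[X]) = a3
    generalize (X - C (-868 / 1000) : ℝ[X]) = a4
    generalize (X - C (-829 / 1000) : ℝ[X]) = a5
    generalize (X - C (-729 / 1000) : ℝ[X]) = a6
    generalize (X - C (-688 / 1000) : ℝ[X]) = a7
    generalize (X - C (-578 / 1000) : ℝ[X]) = a8
    ring

theorem dom : RightDominated Q := by
  refine ⟨⟨1, by norm_num, rfl⟩, ?_⟩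
  rintro _ ⟨x, hx, rfl⟩
  exact dominated x hx

/-- The answer to Q1 is negative. -/
theorem result :
    (¬ ∀ Q : ℝ[X], ZerosInInterval Q → RightDominated Q → DerivPeaksAtEndpoint Q) ∧
    ∃ Q : ℝ[X], ZerosInInterval Q ∧ RightDominated Q ∧ ∃ x₀ ∈ Set.Ioo (-1 : ℝ) 1,
      max |(derivative Q).eval (-1)| |(derivative Q).eval 1| < |(derivative Q).eval x₀| := by
  have h2 : ∃ Q : ℝ[X], ZerosInInterval Q ∧ RightDominated Q ∧ ∃ x₀ ∈ Set.Ioo (-1 : ℝ) 1,
      max |(derivative Q).eval (-1)| |(derivative Q).eval 1| < |(derivative Q).eval x₀| :=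
    ⟨Q, zeros, dom, -953 / 1000, by constructor <;> norm_num, big⟩
  refine ⟨fun h => ?_, h2⟩
  obtain ⟨P, hz, hd, x₀, hx, hlt⟩ := h2
  have h3 := (h P hz hd).2 ⟨x₀, Set.Ioo_subset_Icc_self hx, rfl⟩
  exact absurd hlt (not_lt.mpr h3)

end Pool.Agent.Results.MP_512501_an.InteriorPeak
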